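import Pool.Agent.Helper63.P705.NR.Goals
import Pool.Agent.Helper53.PT.A

/-!
# MP_705522_gt, packet NR-GT2: dimension two
-/

namespace Pool.Agent.Helper39.NR

open MeasureTheory Set Filter Topology
open Pool.Agent.Helper53.PT

theorem gT2 : Pool.Agent.Helper63.P705.NR.GT2 := by
  intro θ h0 h1 t ht
  obtain ⟨⟨hnn, hsum⟩, hmin⟩ := ht
  have hr : 1 < 1 / (2 * θ) := by
    rw [lt_div_iff₀ (by linarith)]; linarith
  have hsg : 0 < sg θ :=
    Real.sqrt_pos.mpr (mul_pos (Real.Gamma_pos_of_pos (by linarith))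
      (Real.Gamma_pos_of_pos (by linarith)))
  have hG : ∀ s : Fin 2 → ℝ, Sx s → G θ s =
      Real.pi / 2 / sg θ * (s 0 ^ (1 / (2 * θ)) + s 1 ^ (1 / (2 * θ))) ^ θ := by
    intro s hs
    rw [← (aPAIR h0 h1 (hs.1 0) (hs.1 1)).2]
    unfold G PP
    simp only [Fin.prod_univ_two]
  have hS : Sx (fun _ : Fin 2 => (1 / 2 : ℝ)) := by
    refine ⟨fun _ => by norm_num, ?_⟩
    rw [Fin.sum_univ_two]; norm_num
  have h2 := hmin _ hS
  rw [hG _ ⟨hnn, hsum⟩, hG _ hS] at h2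
  have hc : 0 < Real.pi / 2 / sg θ := by positivity
  have h3 := le_of_mul_le_mul_left h2 hc
  have ha := hnn 0
  have hb := hnn 1
  have hA : 0 ≤ t 0 ^ (1 / (2 * θ)) + t 1 ^ (1 / (2 * θ)) :=
    add_nonneg (Real.rpow_nonneg ha _) (Real.rpow_nonneg hb _)
  have hB : 0 ≤ (1 / 2 : ℝ) ^ (1 / (2 * θ)) + (1 / 2 : ℝ) ^ (1 / (2 * θ)) := by positivity
  have h4 := (Real.rpow_le_rpow_iff hA hB h0).mp h3
  rw [Fin.sum_univ_two] at hsum
  have h5 : t 0 = t 1 := by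
    by_contra hne
    have h6 := (strictConvexOn_rpow hr).2 (mem_Ici.mpr ha) (mem_Ici.mpr hb) hne
      (show (0 : ℝ) < 1 / 2 by norm_num) (show (0 : ℝ) < 1 / 2 by norm_num) (by norm_num)
    simp only [smul_eq_mul] at h6
    have h7 : 1 / 2 * t 0 + 1 / 2 * t 1 = 1 / 2 := by linarith
    rw [h7] at h6
    linarith
  intro i
  fin_cases i
  · show t 0 = 1 / 2
    linarith
  · show t 1 = 1 / 2
    linarith

end Pool.Agent.Helper39.NR
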